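import Pool.Agent.Helper4_C2.All

/-!
# The c_2-invariants of all decompletions of a 4-regular graph agree, at every prime power
-/

namespace Pool.Agent.Results.MP_503f8d_mp.CompletionC2

open Pool.Agent.C2

/-- Let G be a 4-regular graph (multiple edges allowed, no loops) with at least five vertices and
let F be a finite field with q elements.  For every vertex v such that G - v is connected, q^2
divides the number of zeros of the Kirchhoff polynomial of G - v over F, q^6 divides the number h
of maps from the vertices of G to the lines of the projective space P^3 over F which send the two
ends of every edge to skew lines, and c_2 (G - v) = - h / q^6 modulo q. -/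
theorem result (F : Type) [Field F] [Fintype F] (V E : Type) [Fintype V] [DecidableEq V]
    [Fintype E] (s t : E → V) (loopless : ∀ e, s e ≠ t e) (regular : ∀ v, deg s t v = 4)
    (large : 5 ≤ Fintype.card V) (v : V)
    (connected : Conn (delS s t v) (delT s t v) Finset.univ) :
    Fintype.card F ^ 2 ∣ zeros F (delS s t v) (delT s t v) ∧
    Fintype.card F ^ 6 ∣ homSkew F s t ∧
    c2 F (delS s t v) (delT s t v) =
      - ((homSkew F s t / Fintype.card F ^ 6 : ℕ) : ZMod (Fintype.card F)) :=
  H4.comp_main H4.allFIN F V E s t loopless regular large v connected

end Pool.Agent.Results.MP_503f8d_mp.CompletionC2
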