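import Pool.Agent.Helper4_C2.All

/-!
# The c_2-invariant is the same in all four representations, at every prime power
-/

namespace Pool.Agent.Results.MP_503f8d_mp.FourRepresentations

open Pool.Agent.C2

/-- Let G be a connected graph (multiple edges and loops allowed) with at least four vertices and
twice as many edges as independent cycles, and let F be a finite field with q elements. The
numbers of zeros of the Kirchhoff polynomial, of the dual Kirchhoff polynomial, of the product of
the propagators in momentum space and of the product of the propagators in position space agree
modulo q^3, and all are divisible by q^2. -/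
theorem result (F : Type) [Field F] [Fintype F] (V E : Type) [Fintype V] [DecidableEq V]
    [Fintype E] (s t : E → V) (connected : Conn s t Finset.univ)
    (edges : Fintype.card E + 2 = 2 * Fintype.card V) (large : 4 ≤ Fintype.card V) (r : V) :
    Fintype.card F ^ 2 ∣ zeros F s t ∧
    zerosD F s t ≡ zeros F s t [MOD Fintype.card F ^ 3] ∧
    mom F s t ≡ zeros F s t [MOD Fintype.card F ^ 3] ∧
    pos F s t r ≡ zeros F s t [MOD Fintype.card F ^ 3] :=
  H4.rep H39.zcu H50.cud H97.mtt H98.dua H98.pos H50.zer F V E s t connected edges large r

end Pool.Agent.Results.MP_503f8d_mp.FourRepresentations
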